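import Pool.Agent.H87.SN.Targets

/-!
# EN1: estimate (1), the angular part (`MP_2697e3_an`)
-/

set_option autoImplicit false

namespace Pool.Agent.H11.SN

open Pool.Agent.H87.SN
open MeasureTheory Metric Set Filter Topology
open scoped ContDiff RealInnerProductSpace

noncomputable section

theorem continuous_zp {d : ℕ} : Continuous (zp : E (d + 2) → E d) := by
  unfold zp
  fun_prop

theorem continuous_rho {d : ℕ} : Continuous (rho : E (d + 2) → ℝ) := by
  unfold rho
  fun_prop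

theorem isOpen_neck {d : ℕ} {r : E d → ℝ} (hr : Continuous r) : IsOpen (neck r) := by
  have h1 : neck r = ball (0 : E (d + 2)) 2 ∩ {x | r (zp x) < rho x} := rfl
  rw [h1]
  exact isOpen_ball.inter (isOpen_lt (hr.comp continuous_zp) continuous_rho)

theorem nsq_nonneg {n : ℕ} {F : Type*} [NormedAddCommGroup F] [NormedSpace ℝ F]
    (L : E n →L[ℝ] F) : 0 ≤ nsq L := Finset.sum_nonneg fun _ _ => sq_nonneg _

theorem nzs_nonneg {d : ℕ} {F : Type*} [NormedAddCommGroup F] [NormedSpace ℝ F]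
    (L : E (d + 2) →L[ℝ] F) : 0 ≤ nzs L := Finset.sum_nonneg fun _ _ => sq_nonneg _

theorem gsq_nonneg {n : ℕ} (f : E n → ℝ) (x : E n) : 0 ≤ gsq f x := nsq_nonneg _

theorem rho_nonneg {d : ℕ} (x : E (d + 2)) : 0 ≤ rho x := Real.sqrt_nonneg _

/-- A product of a function with support in an open set and a function continuous there. -/
theorem continuous_mul_of_tsupport {n : ℕ} {U : Set (E n)} (hU : IsOpen U) {a b : E n → ℝ}
    (ha : Continuous a) (hs : tsupport a ⊆ U) (hb : ContinuousOn b U) :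
    Continuous fun x => a x * b x := by
  rw [continuous_iff_continuousAt]
  intro x
  by_cases hx : x ∈ U
  · exact ha.continuousAt.mul (hb.continuousAt (hU.mem_nhds hx))
  · have h1 : x ∉ tsupport a := fun h => hx (hs h)
    have h2 : a =ᶠ[𝓝 x] 0 := notMem_tsupport_iff_eventuallyEq.mp h1
    have h3 : (fun y => a y * b y) =ᶠ[𝓝 x] fun _ => (0 : ℝ) := by
      filter_upwards [h2] with y hy
      rw [hy, Pi.zero_apply, zero_mul]
    exact continuousAt_const.congr h3.symm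

/-- The squared gradient of a product of functions with values in `[0, 1]`. -/
theorem gsq_mul_le {n : ℕ} {a b : E n → ℝ} {x : E n} (ha : DifferentiableAt ℝ a x)
    (hb : DifferentiableAt ℝ b x) (ha1 : 0 ≤ a x ∧ a x ≤ 1) (hb1 : 0 ≤ b x ∧ b x ≤ 1) :
    gsq (fun y => a y * b y) x ≤ 2 * (gsq b x + gsq a x) := by
  unfold gsq nsq
  rw [← Finset.sum_add_distrib, Finset.mul_sum]
  refine Finset.sum_le_sum fun i _ => ?_
  have h1 : fderiv ℝ (fun y => a y * b y) x (bv i) =
      a x * fderiv ℝ b x (bv i) + b x * fderiv ℝ a x (bv i) := by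
    rw [fderiv_fun_mul ha hb]
    rfl
  rw [h1, Real.norm_eq_abs, Real.norm_eq_abs, Real.norm_eq_abs, sq_abs, sq_abs, sq_abs]
  set p := fderiv ℝ b x (bv i)
  set q := fderiv ℝ a x (bv i)
  have h2 : (a x * p) ^ 2 ≤ p ^ 2 := by
    rw [mul_pow]
    have : a x ^ 2 ≤ 1 := pow_le_one₀ ha1.1 ha1.2
    nlinarith [sq_nonneg p]
  have h3 : (b x * q) ^ 2 ≤ q ^ 2 := by
    rw [mul_pow]
    have : b x ^ 2 ≤ 1 := pow_le_one₀ hb1.1 hb1.2
    nlinarith [sq_nonneg q]
  nlinarith [sq_nonneg (a x * p - b x * q)]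

theorem integrable_nsq {n m : ℕ} {G : E n → E n →L[ℝ] E m} {μ : Measure (E n)}
    (h : MemLp G 2 μ) : Integrable (fun x => nsq (G x)) μ := by
  unfold nsq
  refine integrable_finsetSum _ fun i _ => ?_
  have h1 : MemLp (fun x => G x (bv i)) 2 μ :=
    (ContinuousLinearMap.apply ℝ (E m) (bv i)).comp_memLp' h
  exact h1.integrable_norm_pow (by norm_num)

theorem pf_EN1 (hROT : T_ROT) (hLA1 : T_LA1) (hCUT : T_CUT) (hINN : T_INN) (hANG : T_ANG) :
    T_EN1 := by
  intro d C₀ C₁ M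
  obtain ⟨ζ, L, hζC, hζ01, hζrad, hζ1, hζ0, hL0, hζL⟩ :=
    hCUT (d + 2) (3 / 2) (7 / 4) (by norm_num) (by norm_num)
  obtain ⟨C, hC0, hC⟩ := hINN d M
  obtain ⟨K', hK'⟩ : ∃ K' : ℝ, K' = 2 * |C₀| * (L ^ 2 + C) := ⟨_, rfl⟩
  have hK'0 : 0 ≤ K' := by rw [hK']; positivity
  refine ⟨54 * K', by positivity, ?_⟩
  intro r hr hrpos hrM η w hW m u G nd
  obtain ⟨χi, hχC, hχ01, hχrot, hχ0, hχ1, hχg, hχg0⟩ := hC r hr hrpos hrM
  obtain ⟨χ, hχ⟩ : ∃ χ : E (d + 2) → ℝ, χ = fun x => ζ x * χi x := ⟨_, rfl⟩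
  have hχx : ∀ x, χ x = ζ x * χi x := fun x => by rw [hχ]
  have hrc : Continuous r := hr.continuous
  have hU : IsOpen (neck r) := isOpen_neck hrc
  have hζC1 : ContDiff ℝ 1 ζ := hζC.of_le (by exact_mod_cast le_top)
  have hχC1 : ContDiff ℝ 1 χ := by rw [hχ]; exact hζC1.mul hχC
  have hsupp : Function.support χ ⊆ {x | ‖x‖ ≤ 7 / 4 ∧ 9 / 8 * r (zp x) ≤ rho x} := by
    intro x hx
    rw [Function.mem_support, hχx] at hx
    constructor
    · by_contra h
      push Not at h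
      exact hx (by rw [hζ0 x h.le, zero_mul])
    · by_contra h
      push Not at h
      exact hx (by rw [hχ0 x h.le, mul_zero])
  have hclosed : IsClosed {x : E (d + 2) | ‖x‖ ≤ 7 / 4 ∧ 9 / 8 * r (zp x) ≤ rho x} :=
    (isClosed_le continuous_norm continuous_const).inter
      (isClosed_le (continuous_const.mul (hrc.comp continuous_zp)) continuous_rho)
  have hts : tsupport χ ⊆ {x | ‖x‖ ≤ 7 / 4 ∧ 9 / 8 * r (zp x) ≤ rho x} :=
    closure_minimal hsupp hclosed
  have htsU : tsupport χ ⊆ neck r := fun x hx => by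
    obtain ⟨h1, h2⟩ := hts hx
    refine ⟨mem_ball_zero_iff.mpr (by linarith), ?_⟩
    have := hrpos (zp x)
    linarith
  have hcs : HasCompactSupport χ :=
    IsCompact.of_isClosed_subset (isCompact_closedBall (0 : E (d + 2)) (7 / 4))
      (isClosed_tsupport χ) (fun x hx => mem_closedBall_zero_iff.mpr (hts hx).1)
  have hpos : ∀ x ∈ neck r, 0 < rho x := fun x hx => (hrpos (zp x)).trans hx.2
  have hRS : RotSet (neck r) := by
    intro θ x hx
    refine ⟨?_, ?_⟩
    · rw [mem_ball_zero_iff, (hROT d).norm]; exact mem_ball_zero_iff.mp hx.1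
    · rw [(hROT d).zp, (hROT d).rho]; exact hx.2
  have hχrot' : ∀ (θ : ℝ) (x : E (d + 2)), χ (rot θ x) = χ x := by
    intro θ x
    rw [hχx, hχx, hχrot θ x, hζrad (rot θ x) x ((hROT d).norm θ x)]
  have hang : ∫ x, χ x ^ 2 * w x * (rho x ^ 2)⁻¹ * ‖uth u x‖ ^ 2 ≤
      54 * ∫ x, w x * gsq χ x * ‖uth u x‖ ^ 2 :=
    hANG d m (neck r) u w χ hU hRS hpos nd.smooth nd.orth nd.angb (hW.w_C1.mono hpos)
      (fun x hx => hW.w_pos x (hpos x hx)) (fun θ x _ => hW.w_rot θ x)
      (fun x hx => hW.P6 x hx.1 hx.2) hχC1 hcs htsU hχrot'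
  -- the bound of the integrand
  have key : ∀ x ∈ neck r, w x * gsq χ x * ‖uth u x‖ ^ 2 ≤ K' * nsq (fderiv ℝ u x) := by
    intro x hx
    have hw := hW.w_pos x (hpos x hx)
    have hn0 := nsq_nonneg (fderiv ℝ u x)
    have h1 : ‖uth u x‖ ^ 2 ≤ rho x ^ 2 * nsq (fderiv ℝ u x) := by
      have h2 := hLA1 d m (fderiv ℝ u x) x
      have h3 := nzs_nonneg (fderiv ℝ u x)
      unfold uth
      nlinarith [mul_nonneg (sq_nonneg (rho x)) h3, sq_nonneg ‖fderiv ℝ u x (Pm d x)‖]
    have h4 : gsq χ x ≤ 2 * (gsq χi x + gsq ζ x) := by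
      rw [hχ]
      exact gsq_mul_le (hζC1.differentiable (by norm_num) x)
        (hχC.differentiable (by norm_num) x) (hζ01 x) (hχ01 x)
    have h5 : w x * rho x ^ 2 * gsq ζ x ≤ |C₀| * L ^ 2 := by
      have h6 := hW.P7a x hx.1 (hpos x hx)
      refine mul_le_mul ?_ (hζL x) (gsq_nonneg _ _) (abs_nonneg _)
      rw [mul_comm]
      exact h6.trans (le_abs_self _)
    have h8 : w x * rho x ^ 2 * gsq χi x ≤ |C₀| * C := by
      by_cases h9 : 2 * r (zp x) < rho x
      · rw [hχg0 x h9, mul_zero]; positivity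
      · push Not at h9
        have h10 := hW.P7b x hx.1 hx.2.le h9
        calc w x * rho x ^ 2 * gsq χi x = w x * (rho x ^ 2 * gsq χi x) := by ring
          _ ≤ |C₀| * C := mul_le_mul (h10.trans (le_abs_self _)) (hχg x)
            (mul_nonneg (sq_nonneg _) (gsq_nonneg _ _)) (abs_nonneg _)
    have hg1 := gsq_nonneg χi x
    have hg2 := gsq_nonneg ζ x
    calc w x * gsq χ x * ‖uth u x‖ ^ 2 ≤
        w x * (2 * (gsq χi x + gsq ζ x)) * (rho x ^ 2 * nsq (fderiv ℝ u x)) := by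
          refine mul_le_mul (mul_le_mul_of_nonneg_left h4 hw.le) h1 (sq_nonneg _) ?_
          exact mul_nonneg hw.le (by linarith)
      _ = 2 * (w x * rho x ^ 2 * gsq χi x + w x * rho x ^ 2 * gsq ζ x) *
          nsq (fderiv ℝ u x) := by ring
      _ ≤ 2 * (|C₀| * C + |C₀| * L ^ 2) * nsq (fderiv ℝ u x) := by
          refine mul_le_mul_of_nonneg_right ?_ hn0
          linarith
      _ = K' * nsq (fderiv ℝ u x) := by rw [hK']; ring
  have hR : ∫ x, w x * gsq χ x * ‖uth u x‖ ^ 2 ≤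
      K' * ∫ x in ball (0 : E (d + 2)) 2, nsq (G x) := by
    have h0 : ∀ x, x ∉ neck r → w x * gsq χ x * ‖uth u x‖ ^ 2 = 0 := by
      intro x hx
      have h1 : x ∉ tsupport χ := fun h => hx (htsU h)
      have h2 : fderiv ℝ χ x = 0 := by
        by_contra h
        exact h1 (support_fderiv_subset ℝ h)
      have h3 : gsq χ x = 0 := by
        unfold gsq
        rw [h2]
        simp [nsq]
      rw [h3]
      ring
    rw [← setIntegral_eq_integral_of_forall_compl_eq_zero (s := ball (0 : E (d + 2)) 2)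
      (fun x hx => h0 x fun h => hx h.1), ← integral_const_mul]
    refine integral_mono_of_nonneg ?_ ((integrable_nsq nd.memG).const_mul K') ?_
    · refine Eventually.of_forall fun x => ?_
      show 0 ≤ w x * gsq χ x * ‖uth u x‖ ^ 2
      by_cases hx : x ∈ neck r
      · exact mul_nonneg (mul_nonneg (hW.w_pos x (hpos x hx)).le (gsq_nonneg _ _)) (sq_nonneg _)
      · rw [h0 x hx]
    · have h4 : ∀ᵐ x ∂(volume : Measure (E (d + 2))), x ∈ neck r → G x = fderiv ℝ u x :=
        (ae_restrict_iff' hU.measurableSet).mp nd.ae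
      filter_upwards [ae_restrict_of_ae h4] with x hx
      show w x * gsq χ x * ‖uth u x‖ ^ 2 ≤ K' * nsq (G x)
      by_cases hxn : x ∈ neck r
      · rw [hx hxn]
        exact key x hxn
      · rw [h0 x hxn]
        exact mul_nonneg hK'0 (nsq_nonneg _)
  -- the left side
  have hS : MeasurableSet {x : E (d + 2) | x ∈ ball (0 : E (d + 2)) (3 / 2) ∧
      2 * r (zp x) ≤ rho x} :=
    measurableSet_ball.inter
      (isClosed_le (continuous_const.mul (hrc.comp continuous_zp)) continuous_rho).measurableSet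
  have huth : ContinuousOn (uth u) (neck r) := by
    have h1 : ContinuousOn (fderiv ℝ u) (neck r) :=
      nd.smooth.continuousOn_fderiv_of_isOpen hU (by exact_mod_cast le_top)
    exact h1.clm_apply (Jm d).continuous.continuousOn
  have hI : Integrable (fun x => χ x ^ 2 * w x * (rho x ^ 2)⁻¹ * ‖uth u x‖ ^ 2)
      (volume : Measure (E (d + 2))) := by
    have e : (fun x => χ x ^ 2 * w x * (rho x ^ 2)⁻¹ * ‖uth u x‖ ^ 2) =
        fun x => χ x * (χ x * w x * (rho x ^ 2)⁻¹ * ‖uth u x‖ ^ 2) := by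
      funext x
      ring
    rw [e]
    refine Continuous.integrable_of_hasCompactSupport
      (continuous_mul_of_tsupport hU hχC1.continuous htsU ?_) hcs.mul_right
    refine ContinuousOn.mul (ContinuousOn.mul (ContinuousOn.mul hχC1.continuous.continuousOn
      (hW.w_C1.continuousOn.mono hpos)) ?_) (huth.norm.pow 2)
    refine ContinuousOn.inv₀ (continuous_rho.pow 2).continuousOn fun x hx => ?_
    exact pow_ne_zero 2 (hpos x hx).ne'
  have hnn : ∀ x, 0 ≤ χ x ^ 2 * w x * (rho x ^ 2)⁻¹ * ‖uth u x‖ ^ 2 := by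
    intro x
    rcases (rho_nonneg x).eq_or_lt with h | h
    · have h1 : χ x = 0 := by
        rw [hχx, hχ0 x (by rw [← h]; have := hrpos (zp x); positivity), mul_zero]
      rw [h1]
      simp
    · have hw := hW.w_pos x h
      positivity
  have hL1 : ∫ x in {x | x ∈ ball (0 : E (d + 2)) (3 / 2) ∧ 2 * r (zp x) ≤ rho x},
      w x * ((rho x ^ 2)⁻¹ * ‖uth u x‖ ^ 2) =
      ∫ x in {x | x ∈ ball (0 : E (d + 2)) (3 / 2) ∧ 2 * r (zp x) ≤ rho x},
        χ x ^ 2 * w x * (rho x ^ 2)⁻¹ * ‖uth u x‖ ^ 2 := by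
    refine setIntegral_congr_fun hS fun x hx => ?_
    have h1 : χ x = 1 := by
      rw [hχx, hζ1 x (mem_ball_zero_iff.mp hx.1).le, hχ1 x hx.2, mul_one]
    rw [h1]
    ring
  rw [hL1]
  have hL2 := setIntegral_le_integral
    (s := {x | x ∈ ball (0 : E (d + 2)) (3 / 2) ∧ 2 * r (zp x) ≤ rho x}) hI
    (Eventually.of_forall hnn)
  calc _ ≤ ∫ x, χ x ^ 2 * w x * (rho x ^ 2)⁻¹ * ‖uth u x‖ ^ 2 := hL2
    _ ≤ 54 * ∫ x, w x * gsq χ x * ‖uth u x‖ ^ 2 := hang
    _ ≤ 54 * (K' * ∫ x in ball (0 : E (d + 2)) 2, nsq (G x)) := by linarith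
    _ = 54 * K' * ∫ x in ball (0 : E (d + 2)) 2, nsq (G x) := by ring

end

end Pool.Agent.H11.SN
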